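import Pool.Agent.H39.VQ.Targets

/-! Module `M2` of the board `vq_modules`: orthogonality of consecutive levels. -/

set_option autoImplicit false

open Finset

namespace Pool.Agent.H90.VQ

open Pool.Agent.H39.VQ Pool.Agent.H11.CV

lemma sq_norm (z : ℂ) : ((‖z‖ : ℝ) : ℂ) ^ 2 = z * (starRingEnd ℂ) z := by
  rw [Complex.mul_conj, Complex.normSq_eq_norm_sq]
  push_cast
  rfl

/-- the off-diagonal part as a complex function -/
lemma dd_cast {G : Type} (p j : ℕ) (f : ℕ → G → ℂ) (c : ℕ) (g : G) :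
    ((dd p j f c g : ℝ) : ℂ) = ∑ q ∈ (range p).offDiag,
      f (c + p ^ j * q.1) g * (starRingEnd ℂ) (f (c + p ^ j * q.2) g) := by
  unfold dd
  rw [Complex.ofReal_sub, Complex.ofReal_pow, sq_norm, map_sum, Finset.sum_mul_sum,
    ← Finset.sum_product', ← Finset.diag_union_offDiag,
    Finset.sum_union (Finset.disjoint_diag_offDiag _), Finset.sum_diag, Complex.ofReal_sum]
  have h : ∑ i ∈ range p, ((‖f (c + p ^ j * i) g‖ ^ 2 : ℝ) : ℂ) =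
      ∑ i ∈ range p, f (c + p ^ j * i) g * (starRingEnd ℂ) (f (c + p ^ j * i) g) := by
    refine Finset.sum_congr rfl (fun i _ => ?_)
    rw [Complex.ofReal_pow, sq_norm]
  rw [h]
  simp

/-- the frequencies of the off-diagonal parts -/
lemma supp_dd (hFT : V_FT) (hFP : V_FP) (hN1 : V_N1) {p L j : ℕ} {ε : ℤ} {G : Type}
    [AddCommGroup G] [Fintype G] {u0 u1 u2 : G} {f : ℕ → G → ℂ} (hp : p.Prime)
    (hL : 2 * (j + 1) ≤ L) (hε : ¬ (p : ℤ) ∣ ε)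
    (hf : ∀ s : ℕ, s < p ^ (j + 1) → Kc p L (j + 1) u0 u1 u2 ε (s : ℤ) (f s))
    {c : ℕ} (hc : c < p ^ j) {χ : AddChar G ℂ}
    (h : ft (fun g => ((dd p j f c g : ℝ) : ℂ)) χ ≠ 0) :
    (∃ x y z : ℤ, Fr p L u0 u1 u2 χ x y z) ∧
      ∀ x y z : ℤ, Fr p L u0 u1 u2 χ x y z → Dp p j (c : ℤ) x y z := by
  obtain ⟨-, -, -, -, ft5, -⟩ := hFT G
  simp only [dd_cast] at h
  rw [ft5] at h
  obtain ⟨⟨i, i'⟩, hi, hne⟩ := Finset.exists_ne_zero_of_sum_ne_zero h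
  rw [Finset.mem_offDiag, Finset.mem_range, Finset.mem_range] at hi
  obtain ⟨hi1, hi2, hi3⟩ := hi
  simp only at hi1 hi2 hi3 hne
  have hlt : ∀ i : ℕ, i < p → c + p ^ j * i < p ^ (j + 1) := by
    intro i hi
    calc c + p ^ j * i < p ^ j + p ^ j * i := by omega
      _ = p ^ j * (i + 1) := by ring
      _ ≤ p ^ j * p := Nat.mul_le_mul_left _ hi
      _ = p ^ (j + 1) := (pow_succ p j).symm
  obtain ⟨hex, hall⟩ := hFP p L (j + 1) (j + 1) ε ε ((c + p ^ j * i : ℕ) : ℤ)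
    ((c + p ^ j * i' : ℕ) : ℤ) G u0 u1 u2 (f (c + p ^ j * i)) (f (c + p ^ j * i')) hp.one_lt
    (by omega) hL hL (hf _ (hlt i hi1)) (hf _ (hlt i' hi2)) χ hne
  refine ⟨hex, fun x y z hxyz => ?_⟩
  obtain ⟨x', y', z', hP', hP⟩ := hall x y z hxyz
  refine hN1 p (j + 1) j ε ((c + p ^ j * i : ℕ) : ℤ) ((c + p ^ j * i' : ℕ) : ℤ) x y z x' y' z'
    hp hε (by omega) ⟨(i : ℤ) - i', by push_cast; ring⟩ ?_ hP' hP (c : ℤ)
    ⟨-(i : ℤ), by push_cast; ring⟩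
  intro hdvd
  have e : ((c + p ^ j * i : ℕ) : ℤ) - ((c + p ^ j * i' : ℕ) : ℤ) =
      (p : ℤ) ^ j * ((i : ℤ) - i') := by push_cast; ring
  rw [e, pow_succ] at hdvd
  have hp0 : (p : ℤ) ≠ 0 := by exact_mod_cast hp.ne_zero
  have hd := (mul_dvd_mul_iff_left (pow_ne_zero j hp0)).mp hdvd
  apply hi3
  have habs := Int.eq_zero_of_abs_lt_dvd hd (by rw [abs_lt]; constructor <;> omega)
  omega

/-- the frequencies of the squares -/
lemma supp_sq (hFP : V_FP) (hN2 : V_N2) {p L j : ℕ} {ε : ℤ} {G : Type}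
    [AddCommGroup G] [Fintype G] {u0 u1 u2 : G} {f : ℕ → G → ℂ} (hp : p.Prime)
    (hL : 2 * (j + 1) ≤ L)
    (hf : ∀ s : ℕ, s < p ^ (j + 1) → Kc p L (j + 1) u0 u1 u2 ε (s : ℤ) (f s))
    {s : ℕ} (hs : s < p ^ (j + 1)) {χ : AddChar G ℂ}
    (h : ft (fun g => ((‖f s g‖ ^ 2 : ℝ) : ℂ)) χ ≠ 0) :
    ∀ x y z : ℤ, Fr p L u0 u1 u2 χ x y z → (p : ℤ) ^ (2 * j + 1) ∣ x * z - y ^ 2 := by
  have e : (fun g => ((‖f s g‖ ^ 2 : ℝ) : ℂ)) = fun g => f s g * (starRingEnd ℂ) (f s g) := by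
    funext g
    rw [Complex.ofReal_pow, sq_norm]
  rw [e] at h
  obtain ⟨-, hall⟩ := hFP p L (j + 1) (j + 1) ε ε (s : ℤ) (s : ℤ) G u0 u1 u2 (f s) (f s)
    hp.one_lt (by omega) hL hL (hf s hs) (hf s hs) χ h
  intro x y z hxyz
  obtain ⟨x', y', z', hP', hP⟩ := hall x y z hxyz
  have h0 := hN2.1 p (j + 1) ε s x y z x' y' z' hP' hP
  exact (pow_dvd_pow (p : ℤ) (by omega)).trans (hN2.2.1 p (j + 1) s x y z h0)

theorem m2 (hFT : V_FT) (hFP : V_FP) (hN1 : V_N1) (hN2 : V_N2) : V_M2 := by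
  intro p L j ε C G _ _ u0 u1 u2 f hp _ hL hε hC hf
  obtain ⟨ft1, -, -, -, ft5, -⟩ := hFT G
  have hlt : ∀ c ∈ C, ∀ i : ℕ, i < p → c + p ^ j * i < p ^ (j + 1) := by
    intro c hc i hi
    have := hC c hc
    calc c + p ^ j * i < p ^ j + p ^ j * i := by omega
      _ = p ^ j * (i + 1) := by ring
      _ ≤ p ^ j * p := Nat.mul_le_mul_left _ hi
      _ = p ^ (j + 1) := (pow_succ p j).symm
  have key : ∑ g, ((∑ c ∈ C, ((dd p j f c g : ℝ) : ℂ))) * (starRingEnd ℂ)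
      (∑ c ∈ C, ∑ i ∈ range p, ((‖f (c + p ^ j * i) g‖ ^ 2 : ℝ) : ℂ)) = 0 := by
    rw [ft1 (fun g => ∑ c ∈ C, ((dd p j f c g : ℝ) : ℂ))
      (fun g => ∑ c ∈ C, ∑ i ∈ range p, ((‖f (c + p ^ j * i) g‖ ^ 2 : ℝ) : ℂ))]
    refine mul_eq_zero_of_right _ (Finset.sum_eq_zero fun χ _ => ?_)
    by_contra hne
    obtain ⟨hA, hB⟩ := mul_ne_zero_iff.mp hne
    rw [ft5] at hA
    obtain ⟨c, hc, hA⟩ := Finset.exists_ne_zero_of_sum_ne_zero hA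
    have hB : ft (fun g => ∑ c ∈ C, ∑ i ∈ range p, ((‖f (c + p ^ j * i) g‖ ^ 2 : ℝ) : ℂ)) χ ≠ 0 :=
      fun h => hB (by rw [h, map_zero])
    rw [ft5] at hB
    obtain ⟨c', hc', hB⟩ := Finset.exists_ne_zero_of_sum_ne_zero hB
    rw [ft5] at hB
    obtain ⟨i, hi, hB⟩ := Finset.exists_ne_zero_of_sum_ne_zero hB
    rw [Finset.mem_range] at hi
    obtain ⟨⟨x, y, z, hxyz⟩, hall⟩ := supp_dd hFT hFP hN1 hp hL hε hf (hC c hc) hA
    exact hN2.2.2.1 p j c x y z hp (hall x y z hxyz)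
      (supp_sq hFP hN2 hp hL hf (hlt c' hc' i hi) hB x y z hxyz)
  have hcast : ((∑ g, (∑ c ∈ C, dd p j f c g) *
      (∑ c ∈ C, ∑ i ∈ range p, ‖f (c + p ^ j * i) g‖ ^ 2) : ℝ) : ℂ) = 0 := by
    rw [← key, Complex.ofReal_sum]
    refine Finset.sum_congr rfl (fun g _ => ?_)
    have e : (∑ c ∈ C, ∑ i ∈ range p, ((‖f (c + p ^ j * i) g‖ ^ 2 : ℝ) : ℂ)) =
        ((∑ c ∈ C, ∑ i ∈ range p, ‖f (c + p ^ j * i) g‖ ^ 2 : ℝ) : ℂ) := by
      rw [Complex.ofReal_sum]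
      exact Finset.sum_congr rfl (fun c _ => (Complex.ofReal_sum _ _).symm)
    rw [e, Complex.conj_ofReal, Complex.ofReal_mul, Complex.ofReal_sum]
  exact_mod_cast hcast

end Pool.Agent.H90.VQ
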