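import Pool.Agent.H90.VQ.M2

/-! Module `M3` of the board `vq_modules`: almost orthogonality of the off-diagonal parts. -/

set_option autoImplicit false

open Finset

namespace Pool.Agent.H90.VQ

open Pool.Agent.H39.VQ Pool.Agent.H11.CV

lemma eq_of_dvd {a b n : ℕ} (ha : a < n) (hb : b < n) (h : (n : ℤ) ∣ (a : ℤ) - b) : a = b := by
  have := Int.eq_zero_of_abs_lt_dvd h (by rw [abs_lt]; constructor <;> omega)
  omega

theorem m3 (hFT : V_FT) (hFP : V_FP) (hN1 : V_N1) (hN3 : V_N3) : V_M3 := by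
  classical
  intro p L j ε C G _ _ u0 u1 u2 f hp hp2 hL hε hC hf
  obtain ⟨-, ft2, -, -, ft5, -⟩ := hFT G
  -- for every character at most two of the coefficients are not zero
  have hbd : ∀ χ : AddChar G ℂ, ‖ft (fun g => ∑ c ∈ C, ((dd p j f c g : ℝ) : ℂ)) χ‖ ^ 2 ≤
      2 * ∑ c ∈ C, ‖ft (fun g => ((dd p j f c g : ℝ) : ℂ)) χ‖ ^ 2 := by
    intro χ
    rw [ft5]
    have hcard : (C.filter (fun c => ft (fun g => ((dd p j f c g : ℝ) : ℂ)) χ ≠ 0)).card ≤ 2 := by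
      by_contra hcon
      obtain ⟨c₁, h1, c₂, h2, c₃, h3, h12, h13, h23⟩ := Finset.two_lt_card.mp (not_le.mp hcon)
      rw [Finset.mem_filter] at h1 h2 h3
      obtain ⟨⟨x, y, z, hxyz⟩, ha1⟩ := supp_dd hFT hFP hN1 hp hL hε hf (hC c₁ h1.1) h1.2
      obtain ⟨-, ha2⟩ := supp_dd hFT hFP hN1 hp hL hε hf (hC c₂ h2.1) h2.2
      obtain ⟨-, ha3⟩ := supp_dd hFT hFP hN1 hp hL hε hf (hC c₃ h3.1) h3.2
      have hc : (p : ℤ) ^ j = ((p ^ j : ℕ) : ℤ) := by push_cast; rfl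
      rcases hN3 p j c₁ c₂ c₃ x y z hp hp2 (ha1 x y z hxyz) (ha2 x y z hxyz) (ha3 x y z hxyz)
        with h | h | h
      · exact h12 (eq_of_dvd (hC c₁ h1.1) (hC c₂ h2.1) (by rw [← hc]; exact h))
      · exact h13 (eq_of_dvd (hC c₁ h1.1) (hC c₃ h3.1) (by rw [← hc]; exact h))
      · exact h23 (eq_of_dvd (hC c₂ h2.1) (hC c₃ h3.1) (by rw [← hc]; exact h))
    rw [← Finset.sum_filter_ne_zero]
    have h1 : ‖∑ c ∈ C.filter (fun c => ft (fun g => ((dd p j f c g : ℝ) : ℂ)) χ ≠ 0),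
        ft (fun g => ((dd p j f c g : ℝ) : ℂ)) χ‖ ^ 2 ≤
        (∑ c ∈ C.filter (fun c => ft (fun g => ((dd p j f c g : ℝ) : ℂ)) χ ≠ 0),
          ‖ft (fun g => ((dd p j f c g : ℝ) : ℂ)) χ‖) ^ 2 :=
      pow_le_pow_left₀ (norm_nonneg _) (norm_sum_le _ _) 2
    refine h1.trans (sq_sum_le_card_mul_sum_sq.trans ?_)
    refine mul_le_mul (by exact_mod_cast hcard) ?_ (Finset.sum_nonneg fun _ _ => sq_nonneg _)
      (by norm_num)
    exact Finset.sum_le_sum_of_subset_of_nonneg (Finset.filter_subset _ _)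
      (fun _ _ _ => sq_nonneg _)
  have hA := ft2 (fun g => ∑ c ∈ C, ((dd p j f c g : ℝ) : ℂ))
  have hc : ∀ c, ∑ g, (dd p j f c g) ^ 2 =
      (Fintype.card G : ℝ)⁻¹ * ∑ χ : AddChar G ℂ, ‖ft (fun g => ((dd p j f c g : ℝ) : ℂ)) χ‖ ^ 2 := by
    intro c
    rw [← ft2]
    refine Finset.sum_congr rfl (fun g _ => ?_)
    rw [Complex.norm_real, Real.norm_eq_abs, sq_abs]
  have hl : ∑ g, (∑ c ∈ C, dd p j f c g) ^ 2 =
      ∑ g, ‖∑ c ∈ C, ((dd p j f c g : ℝ) : ℂ)‖ ^ 2 := by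
    refine Finset.sum_congr rfl (fun g _ => ?_)
    rw [← Complex.ofReal_sum, Complex.norm_real, Real.norm_eq_abs, sq_abs]
  rw [hl, hA]
  simp only [hc]
  rw [← Finset.mul_sum, Finset.sum_comm]
  calc (Fintype.card G : ℝ)⁻¹ *
        ∑ χ : AddChar G ℂ, ‖ft (fun g => ∑ c ∈ C, ((dd p j f c g : ℝ) : ℂ)) χ‖ ^ 2
      ≤ (Fintype.card G : ℝ)⁻¹ * ∑ χ : AddChar G ℂ,
        2 * ∑ c ∈ C, ‖ft (fun g => ((dd p j f c g : ℝ) : ℂ)) χ‖ ^ 2 :=
        mul_le_mul_of_nonneg_left (Finset.sum_le_sum fun χ _ => hbd χ) (by positivity)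
    _ = _ := by rw [← Finset.mul_sum]; ring

end Pool.Agent.H90.VQ
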